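import Mathlib

/-!
# Inclusion vectors of antichains: profile lemma and independence (MP_f155e9_co)
-/

set_option autoImplicit false

namespace Pool.Agent.F155B

open Finset

/-- interpolation: a combination of the polynomials `x ↦ C(x, j)`, `j ≤ s`, which is `1` at `N` and `0` at
`N - 1, …, N - s`. -/
theorem kernel (s N : ℕ) (h : s ≤ N) : ∃ κ : ℕ → ℝ, ∀ i ≤ s,
    ∑ j ∈ range (s + 1), κ j * ((N - i).choose j : ℝ) = if i = 0 then 1 else 0 := by
  refine ⟨fun j => ((Ring.choose ((s : ℤ) - N) (s - j) : ℤ) : ℝ), fun i hi => ?_⟩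
  have h1 := Ring.add_choose_eq (R := ℤ) (r := ((N - i : ℕ) : ℤ)) (s := (s : ℤ) - N) s (Commute.all _ _)
  have h2 : ((N - i : ℕ) : ℤ) + ((s : ℤ) - N) = ((s - i : ℕ) : ℤ) := by
    push_cast [Nat.cast_sub hi, Nat.cast_sub (hi.trans h)]
    ring
  rw [h2, Ring.choose_natCast, Finset.Nat.sum_antidiagonal_eq_sum_range_succ_mk] at h1
  have h3 := congrArg (fun z : ℤ => (z : ℝ)) h1
  simp only [Int.cast_sum, Int.cast_mul, Int.cast_natCast, Ring.choose_natCast] at h3
  have h4 : ∑ j ∈ range (s + 1), ((Ring.choose ((s : ℤ) - N) (s - j) : ℤ) : ℝ) * ((N - i).choose j : ℝ) =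
      ((s - i).choose s : ℝ) := by
    rw [h3]
    exact Finset.sum_congr rfl fun j _ => mul_comm _ _
  rw [h4]
  split_ifs with h0
  · subst h0
    simp
  · rw [Nat.choose_eq_zero_of_lt (by omega)]
    simp

variable {α : Type*} [Fintype α] [DecidableEq α]

/-- the profile lemma -/
theorem profile {s N : ℕ} (h : s ≤ N) {y : Finset α → ℝ}
    (hy : ∀ J : Finset α, J.card ≤ s → ∑ X with J ⊆ X, y X = 0) (A : Finset α)
    (hA : ∀ X, y X ≠ 0 → (X ∩ A).card ≤ N ∧ N ≤ (X ∩ A).card + s) :
    ∑ X with (X ∩ A).card = N, y X = 0 := by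
  obtain ⟨κ, hκ⟩ := kernel s N h
  have h1 : ∀ j ∈ range (s + 1), ∑ X : Finset α, y X * ((X ∩ A).card.choose j : ℝ) = 0 := by
    intro j hj
    have h2 : ∀ X : Finset α, y X * ((X ∩ A).card.choose j : ℝ) =
        ∑ J ∈ powersetCard j A, if J ⊆ X then y X else 0 := by
      intro X
      rw [← Finset.sum_filter, Finset.sum_const, nsmul_eq_mul, mul_comm, ← card_powersetCard]
      congr 3
      ext J
      simp only [mem_powersetCard, mem_filter, subset_inter_iff]
      tauto
    simp only [h2]
    rw [Finset.sum_comm]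
    refine Finset.sum_eq_zero fun J hJ => ?_
    rw [← Finset.sum_filter]
    refine hy J ?_
    rw [(mem_powersetCard.mp hJ).2]
    exact Nat.lt_succ_iff.mp (mem_range.mp hj)
  have h3 : ∑ X : Finset α, y X * ∑ j ∈ range (s + 1), κ j * ((X ∩ A).card.choose j : ℝ) = 0 := by
    simp only [Finset.mul_sum]
    rw [Finset.sum_comm]
    refine Finset.sum_eq_zero fun j hj => ?_
    have := h1 j hj
    calc ∑ X : Finset α, y X * (κ j * ((X ∩ A).card.choose j : ℝ)) =
        κ j * ∑ X : Finset α, y X * ((X ∩ A).card.choose j : ℝ) := by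
          rw [Finset.mul_sum]
          exact Finset.sum_congr rfl fun X _ => by ring
      _ = 0 := by rw [this, mul_zero]
  rw [Finset.sum_filter]
  refine Eq.trans (Finset.sum_congr rfl fun X _ => ?_) h3
  by_cases hX : y X = 0
  · simp [hX]
  · obtain ⟨h4, h5⟩ := hA X hX
    have h6 := hκ (N - (X ∩ A).card) (by omega)
    rw [Nat.sub_sub_self h4] at h6
    rw [h6]
    by_cases h7 : (X ∩ A).card = N
    · simp [h7]
    · rw [if_neg h7, if_neg (by omega), mul_zero]

theorem card_between {J X : Finset α} (hJX : J ⊆ X) {s : ℕ} (hJ : J.card ≤ s) :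
    ((univ : Finset (Finset α)).filter fun S => S.card = s ∧ J ⊆ S ∧ S ⊆ X).card =
      (X.card - J.card).choose (s - J.card) := by
  rw [← card_sdiff_of_subset hJX, ← card_powersetCard]
  refine Finset.card_nbij' (fun S => S \ J) (fun T => T ∪ J) ?_ ?_ ?_ ?_
  · intro S hS
    simp only [mem_coe, mem_filter, mem_univ, true_and] at hS
    obtain ⟨h1, h2, h3⟩ := hS
    simp only [mem_coe, mem_powersetCard]
    refine ⟨sdiff_subset_sdiff h3 subset_rfl, ?_⟩
    rw [card_sdiff_of_subset h2, h1]
  · intro T hT
    simp only [mem_coe, mem_powersetCard] at hT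
    obtain ⟨h1, h2⟩ := hT
    simp only [mem_coe, mem_filter, mem_univ, true_and]
    have h3 : Disjoint T J := disjoint_of_subset_left h1 sdiff_disjoint
    refine ⟨?_, subset_union_right, union_subset (h1.trans sdiff_subset) hJX⟩
    rw [card_union_of_disjoint h3, h2]
    omega
  · intro S hS
    simp only [mem_coe, mem_filter, mem_univ, true_and] at hS
    exact sdiff_union_of_subset hS.2.1
  · intro T hT
    simp only [mem_coe, mem_powersetCard] at hT
    have h3 : Disjoint T J := disjoint_of_subset_left hT.1 sdiff_disjoint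
    show (T ∪ J) \ J = T
    rw [union_sdiff_right, sdiff_eq_self_of_disjoint h3]

/-- for functions on a slice the sums over the `s`-sets control the sums over smaller sets -/
theorem down {s c : ℕ} (hsc : s ≤ c) {y : Finset α → ℝ} (hc : ∀ X, y X ≠ 0 → X.card = c)
    (hy : ∀ S : Finset α, S.card = s → ∑ X with S ⊆ X, y X = 0) (J : Finset α)
    (hJ : J.card ≤ s) : ∑ X with J ⊆ X, y X = 0 := by
  have h1 : ∑ S : Finset α with S.card = s ∧ J ⊆ S, ∑ X with S ⊆ X, y X = 0 :=
    Finset.sum_eq_zero fun S hS => hy S (mem_filter.mp hS).2.1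
  have h2 : ∑ S : Finset α with S.card = s ∧ J ⊆ S, ∑ X with S ⊆ X, y X =
      ((c - J.card).choose (s - J.card) : ℝ) * ∑ X with J ⊆ X, y X := by
    have h0 : ∀ S : Finset α, ∑ X with S ⊆ X, y X = ∑ X, if S ⊆ X then y X else 0 :=
      fun S => Finset.sum_filter _ _
    rw [Finset.sum_congr rfl (fun S _ => h0 S), Finset.sum_comm, h0 J, Finset.mul_sum]
    refine Finset.sum_congr rfl fun X _ => ?_
    by_cases hX : y X = 0
    · simp [hX]
    · rw [← Finset.sum_filter, Finset.sum_const, nsmul_eq_mul, Finset.filter_filter]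
      by_cases hJX : J ⊆ X
      · rw [if_pos hJX, ← hc X hX, ← card_between hJX hJ]
        simp only [and_assoc]
      · rw [if_neg hJX, mul_zero]
        have : ((univ : Finset (Finset α)).filter fun S => (S.card = s ∧ J ⊆ S) ∧ S ⊆ X) = ∅ := by
          refine Finset.filter_eq_empty_iff.mpr fun S _ h => hJX (h.1.2.trans h.2)
        rw [this]
        simp
  rw [h2] at h1
  rcases mul_eq_zero.mp h1 with h3 | h3
  · exfalso
    have : 0 < (c - J.card).choose (s - J.card) := Nat.choose_pos (by omega)
    have h4 : ((c - J.card).choose (s - J.card) : ℝ) ≠ 0 := by positivity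
    exact h4 h3
  · exact h3

/-- the `s`-inclusion vectors of the members of `F` are linearly independent -/
def Indep (s : ℕ) (F : Finset (Finset α)) : Prop :=
  ∀ w : Finset α → ℝ, (∀ S : Finset α, S.card = s → ∑ A ∈ F with S ⊆ A, w A = 0) →
    ∀ A ∈ F, w A = 0

/-- the push-down of `w` to the slice `m` -/
noncomputable def push (s m : ℕ) (F : Finset (Finset α)) (w : Finset α → ℝ) (X : Finset α) : ℝ :=
  if X.card = m then ∑ A ∈ F with X ⊆ A, w A / ((A.card - s).choose (m - s) : ℝ) else 0

theorem push_sum {s m : ℕ} (hsm : s ≤ m) (F : Finset (Finset α)) (hF : ∀ A ∈ F, m ≤ A.card)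
    (w : Finset α → ℝ) (S : Finset α) (hS : S.card = s) :
    ∑ X with S ⊆ X, push s m F w X = ∑ A ∈ F with S ⊆ A, w A := by
  have h1 : ∀ X : Finset α, push s m F w X =
      ∑ A ∈ F, if X.card = m ∧ X ⊆ A then w A / ((A.card - s).choose (m - s) : ℝ) else 0 := by
    intro X
    rw [push]
    split_ifs with h
    · rw [Finset.sum_filter]
      simp [h]
    · simp [h]
  simp only [h1]
  rw [Finset.sum_comm, Finset.sum_filter]
  refine Finset.sum_congr rfl fun A hA => ?_
  rw [← Finset.sum_filter, Finset.sum_const, nsmul_eq_mul, Finset.filter_filter]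
  by_cases hSA : S ⊆ A
  · rw [if_pos hSA]
    have h2 : ((univ : Finset (Finset α)).filter fun X => S ⊆ X ∧ X.card = m ∧ X ⊆ A).card =
        (A.card - s).choose (m - s) := by
      rw [← hS, ← card_between hSA (s := m) (by omega)]
      congr 1
      ext X
      simp only [mem_filter, mem_univ, true_and]
      tauto
    rw [h2]
    have h3 : 0 < (A.card - s).choose (m - s) := Nat.choose_pos (by have := hF A hA; omega)
    have h4 : ((A.card - s).choose (m - s) : ℝ) ≠ 0 := by positivity
    field_simp
  · rw [if_neg hSA]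
    have : ((univ : Finset (Finset α)).filter fun X => S ⊆ X ∧ X.card = m ∧ X ⊆ A) = ∅ :=
      Finset.filter_eq_empty_iff.mpr fun X _ h => hSA (h.1.trans h.2.2)
    rw [this]
    simp

theorem push_supp {s m : ℕ} {F : Finset (Finset α)} {w : Finset α → ℝ} {X : Finset α}
    (h : push s m F w X ≠ 0) : X.card = m ∧ ∃ A ∈ F, X ⊆ A := by
  rw [push] at h
  split_ifs at h with h1
  · refine ⟨h1, ?_⟩
    obtain ⟨A, hA, _⟩ := Finset.exists_ne_zero_of_sum_ne_zero h
    rw [mem_filter] at hA
    exact ⟨A, hA.1, hA.2⟩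
  · exact absurd rfl h

theorem push_self {s m : ℕ} {F : Finset (Finset α)}
    (hanti : IsAntichain (· ⊆ ·) (F : Set (Finset α))) {w : Finset α → ℝ} {B : Finset α}
    (hB : B ∈ F) (hBm : B.card = m) : push s m F w B = w B := by
  rw [push, if_pos hBm]
  have h1 : F.filter (fun A => B ⊆ A) = {B} := by
    ext A
    simp only [mem_filter, mem_singleton]
    constructor
    · rintro ⟨hA, hBA⟩
      by_contra hne
      exact hanti hB hA (Ne.symm hne) hBA
    · rintro rfl
      exact ⟨hB, subset_rfl⟩
  rw [h1, Finset.sum_singleton, hBm]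
  simp

/-- the basic vanishing statement: sums of the push-down over the slice below a set `A` -/
theorem push_below {s m : ℕ} (hsm : s ≤ m) {F : Finset (Finset α)} (hF : ∀ A ∈ F, m ≤ A.card)
    {w : Finset α → ℝ} (hw : ∀ S : Finset α, S.card = s → ∑ A ∈ F with S ⊆ A, w A = 0)
    (A : Finset α) (hA : ∀ A' ∈ F, (A' \ A).card ≤ s) :
    ∑ X with X ⊆ A, push s m F w X = 0 := by
  have h1 := profile (s := s) (N := m) hsm (y := push s m F w)
    (down hsm (fun X hX => (push_supp hX).1) (fun S hS => by rw [push_sum hsm F hF w S hS, hw S hS]))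
    A ?_
  · rw [← h1, Finset.sum_filter, Finset.sum_filter]
    refine Finset.sum_congr rfl fun X _ => ?_
    by_cases hX : push s m F w X = 0
    · simp [hX]
    · have h2 := (push_supp hX).1
      by_cases hXA : X ⊆ A
      · rw [if_pos hXA, if_pos (by rw [inter_eq_left.mpr hXA, h2])]
      · rw [if_neg hXA, if_neg]
        intro h3
        apply hXA
        rw [← inter_eq_left]
        exact eq_of_subset_of_card_le inter_subset_left (by rw [h3, h2])
  · intro X hX
    obtain ⟨h2, A', hA', hXA'⟩ := push_supp hX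
    refine ⟨(card_le_card inter_subset_left).trans h2.le, ?_⟩
    have h3 : (X \ A).card ≤ s := (card_le_card (sdiff_subset_sdiff hXA' subset_rfl)).trans (hA A' hA')
    have h4 := card_sdiff_add_card_inter X A
    omega

theorem IsAntichain.mono' {F G : Finset (Finset α)}
    (hanti : IsAntichain (· ⊆ ·) (F : Set (Finset α))) (h : G ⊆ F) :
    IsAntichain (· ⊆ ·) (G : Set (Finset α)) :=
  hanti.subset (by exact_mod_cast h)

/-- P1 : all cross differences at most `s` -/
theorem indep_of_diff {s : ℕ} : ∀ {F : Finset (Finset α)},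
    IsAntichain (· ⊆ ·) (F : Set (Finset α)) → (∀ A ∈ F, s ≤ A.card) →
    (∀ A ∈ F, ∀ A' ∈ F, (A' \ A).card ≤ s) → Indep s F := by
  intro F
  induction F using Finset.strongInduction with
  | H F ih =>
    intro hanti hF hd w hw
    rcases F.eq_empty_or_nonempty with rfl | hne
    · simp
    obtain ⟨A0, hA0, hmin⟩ := Finset.exists_min_image F Finset.card hne
    have hsm : s ≤ A0.card := hF A0 hA0
    have h1 : ∀ B ∈ F, B.card = A0.card → w B = 0 := by
      intro B hB hBm
      have h2 := push_below hsm (F := F) (fun A hA => hmin A hA) hw B (fun A' hA' => hd B hB A' hA')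
      rw [← push_self (s := s) (w := w) hanti hB hBm]
      refine Eq.trans ?_ h2
      rw [Finset.sum_filter, Finset.sum_eq_single B]
      · simp
      · intro X _ hX
        split_ifs with h3
        · by_contra h4
          apply hX
          exact eq_of_subset_of_card_le h3 (by rw [hBm, (push_supp h4).1])
        · rfl
      · simp
    have h5 : F.filter (fun A => A.card ≠ A0.card) ⊂ F := by
      refine Finset.filter_ssubset.mpr ⟨A0, hA0, by simp⟩
    have h6 := ih _ h5 (IsAntichain.mono' hanti (filter_subset _ _))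
      (fun A hA => hF A (mem_filter.mp hA).1)
      (fun A hA A' hA' => hd A (mem_filter.mp hA).1 A' (mem_filter.mp hA').1) w ?_
    · intro A hA
      by_cases h7 : A.card = A0.card
      · exact h1 A hA h7
      · exact h6 A (mem_filter.mpr ⟨hA, h7⟩)
    · intro S hS
      rw [← hw S hS, Finset.filter_filter]
      rw [Finset.sum_filter, Finset.sum_filter]
      refine Finset.sum_congr rfl fun A hA => ?_
      by_cases h7 : A.card = A0.card
      · simp [h7, h1 A hA h7]
      · simp [h7]

/-- the energy identity -/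
theorem push_energy {s m : ℕ} (F : Finset (Finset α)) (w : Finset α → ℝ) :
    ∑ X, push s m F w X ^ 2 =
      ∑ A ∈ F, w A / ((A.card - s).choose (m - s) : ℝ) * ∑ X with X ⊆ A, push s m F w X := by
  have h1 : ∀ X : Finset α, push s m F w X ^ 2 = ∑ A ∈ F, if X ⊆ A then
      w A / ((A.card - s).choose (m - s) : ℝ) * push s m F w X else 0 := by
    intro X
    by_cases h : X.card = m
    · have : push s m F w X = ∑ A ∈ F with X ⊆ A, w A / ((A.card - s).choose (m - s) : ℝ) := by
        rw [push, if_pos h]
      rw [sq]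
      nth_rewrite 1 [this]
      rw [Finset.sum_mul, Finset.sum_filter]
    · have : push s m F w X = 0 := by rw [push, if_neg h]
      simp [this]
  simp only [h1]
  rw [Finset.sum_comm]
  refine Finset.sum_congr rfl fun A _ => ?_
  rw [← Finset.sum_filter, Finset.mul_sum]

/-- P2 : a block of levels, with lowest level `m` -/
theorem indep_block {s m : ℕ} (hsm : s ≤ m) {F : Finset (Finset α)}
    (hanti : IsAntichain (· ⊆ ·) (F : Set (Finset α))) (hF : ∀ A ∈ F, m ≤ A.card)
    (hm : ∀ A ∈ F, A.card = m → ∀ A' ∈ F, A'.card = m → (A' \ A).card ≤ s)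
    (hd : ∀ A ∈ F, m < A.card → ∀ A' ∈ F, (A' \ A).card ≤ s) : Indep s F := by
  intro w hw
  set y := push s m F w with hy
  have hup : ∀ A ∈ F, m < A.card → ∑ X with X ⊆ A, y X = 0 := fun A hA hAm =>
    push_below hsm hF hw A (hd A hA hAm)
  have heq : ∀ B ∈ F, B.card = m → ∑ X with X ⊆ B, y X = w B := by
    intro B hB hBm
    rw [← push_self (s := s) (w := w) hanti hB hBm, Finset.sum_filter, Finset.sum_eq_single B]
    · simp [hy]
    · intro X _ hX
      split_ifs with h3
      · by_contra h4
        apply hX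
        exact eq_of_subset_of_card_le h3 (by rw [hBm, (push_supp h4).1])
      · rfl
    · simp
  have hself : ∀ B ∈ F, B.card = m → y B = w B := fun B hB hBm => push_self hanti hB hBm
  -- energy
  have hE := push_energy (s := s) (m := m) F w
  rw [← hy] at hE
  have h1 : ∑ X, y X ^ 2 = ∑ A ∈ F with A.card = m, y A ^ 2 := by
    rw [hE, Finset.sum_filter]
    refine Finset.sum_congr rfl fun A hA => ?_
    rcases (hF A hA).eq_or_lt with h | h
    · rw [if_pos h.symm, heq A hA h.symm, hself A hA h.symm, ← h]
      simp [sq]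
    · rw [if_neg h.ne', hup A hA h, mul_zero]
  have h2 : ∀ X, X ∉ F.filter (fun A => A.card = m) → y X = 0 := by
    intro X hX
    have h3 : ∑ X ∈ (F.filter (fun A => A.card = m))ᶜ, y X ^ 2 = 0 := by
      have := Finset.sum_add_sum_compl (F.filter (fun A => A.card = m)) (fun X => y X ^ 2)
      linarith
    rw [Finset.sum_eq_zero_iff_of_nonneg (fun X _ => sq_nonneg _)] at h3
    have := h3 X (by simpa using hX)
    exact pow_eq_zero_iff (two_ne_zero) |>.mp this
  -- the lowest level
  have h4 : ∀ A ∈ F.filter (fun A => A.card = m), w A = 0 := by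
    refine indep_of_diff (s := s) (IsAntichain.mono' hanti (filter_subset _ _))
      (fun A hA => hsm.trans (hF A (mem_filter.mp hA).1)) ?_ w ?_
    · intro A hA A' hA'
      rw [mem_filter] at hA hA'
      exact hm A hA.1 hA.2 A' hA'.1 hA'.2
    · intro S hS
      have h5 : ∑ X with S ⊆ X, y X = 0 := by
        rw [hy, push_sum hsm F hF w S hS, hw S hS]
      refine Eq.trans ?_ h5
      have h6 : ∑ X : Finset α, (if S ⊆ X then y X else 0) =
          ∑ X ∈ F.filter (fun A => A.card = m), if S ⊆ X then y X else 0 := by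
        refine (Finset.sum_subset (subset_univ _) fun X _ hX => ?_).symm
        rw [h2 X hX]
        simp
      rw [Finset.sum_filter, Finset.sum_filter (fun X => S ⊆ X) y, h6]
      refine Finset.sum_congr rfl fun A hA => ?_
      rw [mem_filter] at hA
      rw [hself A hA.1 hA.2]
  -- the upper levels
  have h7 : ∀ A ∈ F.filter (fun A => m < A.card), w A = 0 := by
    refine indep_of_diff (s := s) (IsAntichain.mono' hanti (filter_subset _ _))
      (fun A hA => hsm.trans (hF A (mem_filter.mp hA).1)) ?_ w ?_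
    · intro A hA A' hA'
      rw [mem_filter] at hA hA'
      exact hd A hA.1 hA.2 A' hA'.1
    · intro S hS
      rw [← hw S hS, Finset.filter_filter, Finset.sum_filter, Finset.sum_filter]
      refine Finset.sum_congr rfl fun A hA => ?_
      rcases (hF A hA).eq_or_lt with h | h
      · rw [if_neg (fun h' => absurd h'.1 (by omega)), h4 A (mem_filter.mpr ⟨hA, h.symm⟩)]
        simp
      · simp [h]
  intro A hA
  rcases (hF A hA).eq_or_lt with h | h
  · exact h4 A (mem_filter.mpr ⟨hA, h.symm⟩)
  · exact h7 A (mem_filter.mpr ⟨hA, h⟩)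

/-- the members of size `s` are harmless -/
theorem indep_drop {s : ℕ} {F : Finset (Finset α)}
    (hanti : IsAntichain (· ⊆ ·) (F : Set (Finset α))) 
    (h : Indep s (F.filter fun A => A.card ≠ s)) : Indep s F := by
  intro w hw
  have h1 : ∀ A ∈ F, A.card = s → w A = 0 := by
    intro A hA hAs
    rw [← hw A hAs]
    have h1 : F.filter (fun B => A ⊆ B) = {A} := by
      ext B
      simp only [mem_filter, mem_singleton]
      constructor
      · rintro ⟨hB, hAB⟩
        by_contra hne
        exact hanti hA hB (Ne.symm hne) hAB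
      · rintro rfl
        exact ⟨hA, subset_rfl⟩
    rw [h1, Finset.sum_singleton]
  have h2 := h w (by
    intro S hS
    rw [← hw S hS, Finset.filter_filter, Finset.sum_filter, Finset.sum_filter]
    refine Finset.sum_congr rfl fun A hA => ?_
    by_cases h3 : A.card = s
    · simp [h3, h1 A hA h3]
    · simp [h3])
  intro A hA
  by_cases h3 : A.card = s
  · exact h1 A hA h3
  · exact h2 A (mem_filter.mpr ⟨hA, h3⟩)

end Pool.Agent.F155B
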