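import Pool.Agent.F155B.Core

/-!
# Antichains of bounded diameter on few levels, and of small diameter (MP_f155e9_co)
-/

set_option autoImplicit false

namespace Pool.Agent.F155B

open Finset

variable {α : Type*} [Fintype α] [DecidableEq α]

/-- linearly independent vectors indexed by `F` in the space of functions on the `s`-sets -/
theorem card_le_of_indep (s : ℕ) (F : Finset (Finset α)) (v : Finset α → Finset α → ℝ)
    (h : ∀ w : Finset α → ℝ, (∀ S : Finset α, S.card = s → ∑ A ∈ F, w A * v A S = 0) →
      ∀ A ∈ F, w A = 0) : F.card ≤ (Fintype.card α).choose s := by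
  classical
  have hli : LinearIndependent ℝ (fun (A : F) (S : (powersetCard s (univ : Finset α))) =>
      v A.1 S.1) := by
    rw [Fintype.linearIndependent_iff]
    intro g hg A
    have h1 := h (fun A => if hA : A ∈ F then g ⟨A, hA⟩ else 0) (by
      intro S hS
      have h2 := congrFun hg ⟨S, by simp [mem_powersetCard, hS]⟩
      rw [Finset.sum_apply] at h2
      rw [← Finset.sum_coe_sort F]
      simpa using h2) A.1 A.2
    simpa using h1
  have h3 := hli.fintype_card_le_finrank
  rw [Module.finrank_fintype_fun_eq_card] at h3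
  simpa using h3

theorem compl_antichain {F : Finset (Finset α)}
    (hanti : IsAntichain (· ⊆ ·) (F : Set (Finset α))) :
    IsAntichain (· ⊆ ·) ((F.image compl : Finset (Finset α)) : Set (Finset α)) := by
  intro A hA B hB hne hAB
  rw [coe_image, Set.mem_image] at hA hB
  obtain ⟨A', hA', rfl⟩ := hA
  obtain ⟨B', hB', rfl⟩ := hB
  exact hanti hB' hA' (fun h => hne (by rw [h])) (compl_subset_compl.mp hAB)

/-- `s`-disjointness vectors -/
theorem indep_disj {s : ℕ} {F : Finset (Finset α)} (h : Indep s (F.image compl))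
    (w : Finset α → ℝ) (hw : ∀ S : Finset α, S.card = s → ∑ A ∈ F with Disjoint S A, w A = 0) :
    ∀ A ∈ F, w A = 0 := by
  intro A hA
  have h1 := h (fun B => w Bᶜ) (by
    intro S hS
    refine Eq.trans ?_ (hw S hS)
    rw [Finset.sum_filter, Finset.sum_image (fun x _ y _ h => compl_injective h),
      Finset.sum_filter]
    refine Finset.sum_congr rfl fun B _ => ?_
    rw [compl_compl]
    simp only [Finset.subset_compl_iff_disjoint_right]) Aᶜ
    (mem_image_of_mem _ hA)
  simpa using h1

/-- superset vectors: `w` with `∑_{A ⊆ S} w A = 0` for all `S` of size `t` -/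
theorem indep_sup {t : ℕ} (ht : t ≤ Fintype.card α) {F : Finset (Finset α)}
    (h : Indep (Fintype.card α - t) (F.image compl))
    (w : Finset α → ℝ) (hw : ∀ S : Finset α, S.card = t → ∑ A ∈ F with A ⊆ S, w A = 0) :
    ∀ A ∈ F, w A = 0 := by
  intro A hA
  have h1 := h (fun B => w Bᶜ) (by
    intro S hS
    have hS' : Sᶜ.card = t := by rw [card_compl, hS]; omega
    refine Eq.trans ?_ (hw Sᶜ hS')
    rw [Finset.sum_filter, Finset.sum_image (fun x _ y _ h => compl_injective h),
      Finset.sum_filter]
    refine Finset.sum_congr rfl fun B _ => ?_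
    rw [compl_compl]
    have : S ⊆ Bᶜ ↔ B ⊆ Sᶜ := by
      rw [← compl_subset_compl, compl_compl]
    simp only [this]) Aᶜ (mem_image_of_mem _ hA)
  simpa using h1

/-- LU : lower part with inclusion vectors, upper part with disjointness vectors -/
theorem lu {s : ℕ} {F : Finset (Finset α)} (c : ℕ)
    (hL : Indep s (F.filter fun A => A.card ≤ c))
    (hU : Indep s ((F.filter fun A => ¬ A.card ≤ c).image compl))
    (hd : ∀ A ∈ F, A.card ≤ c → ∀ B ∈ F, ¬ B.card ≤ c → (A \ B).card < s) :
    F.card ≤ (Fintype.card α).choose s := by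
  classical
  refine card_le_of_indep s F (fun A S => if A.card ≤ c then (if S ⊆ A then 1 else 0) else
    (if Disjoint S A then 1 else 0)) ?_
  intro w hw
  have h1 : ∀ S : Finset α, S.card = s →
      ∑ A ∈ F.filter (fun A => A.card ≤ c) with S ⊆ A, w A = 0 ∧
      ∑ A ∈ F.filter (fun A => ¬ A.card ≤ c) with Disjoint S A, w A = 0 := by
    intro S hS
    have h2 := hw S hS
    rw [← Finset.sum_filter_add_sum_filter_not F (fun A => A.card ≤ c)] at h2
    have h3 : ∑ x ∈ F.filter (fun A => A.card ≤ c), w x * (if x.card ≤ c then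
        (if S ⊆ x then 1 else 0) else (if Disjoint S x then 1 else 0)) =
        ∑ A ∈ F.filter (fun A => A.card ≤ c) with S ⊆ A, w A := by
      rw [Finset.sum_filter (fun A => S ⊆ A)]
      refine Finset.sum_congr rfl fun A hA => ?_
      rw [if_pos (mem_filter.mp hA).2]
      split_ifs <;> simp
    have h4 : ∑ x ∈ F.filter (fun A => ¬ A.card ≤ c), w x * (if x.card ≤ c then
        (if S ⊆ x then 1 else 0) else (if Disjoint S x then 1 else 0)) =
        ∑ A ∈ F.filter (fun A => ¬ A.card ≤ c) with Disjoint S A, w A := by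
      rw [Finset.sum_filter (fun A => Disjoint S A)]
      refine Finset.sum_congr rfl fun A hA => ?_
      rw [if_neg (mem_filter.mp hA).2]
      split_ifs <;> simp
    rw [h3, h4] at h2
    by_cases h5 : ∃ A ∈ F, A.card ≤ c ∧ S ⊆ A
    · obtain ⟨A, hA, hAc, hSA⟩ := h5
      have h6 : ∑ A ∈ F.filter (fun A => ¬ A.card ≤ c) with Disjoint S A, w A = 0 := by
        rw [Finset.sum_eq_zero]
        intro B hB
        exfalso
        rw [mem_filter, mem_filter] at hB
        have h7 := hd A hA hAc B hB.1.1 hB.1.2
        have h8 : S ⊆ A \ B := subset_sdiff.mpr ⟨hSA, hB.2⟩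
        have h9 := card_le_card h8
        omega
      rw [h6, add_zero] at h2
      exact ⟨h2, h6⟩
    · have h6 : ∑ A ∈ F.filter (fun A => A.card ≤ c) with S ⊆ A, w A = 0 := by
        rw [Finset.sum_eq_zero]
        intro B hB
        exfalso
        rw [mem_filter, mem_filter] at hB
        exact h5 ⟨B, hB.1.1, hB.1.2, hB.2⟩
      rw [h6, zero_add] at h2
      exact ⟨h6, h2⟩
  have h10 := hL w (fun S hS => (h1 S hS).1)
  have h11 := indep_disj hU w (fun S hS => (h1 S hS).2)
  intro A hA
  by_cases h12 : A.card ≤ c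
  · exact h10 A (mem_filter.mpr ⟨hA, h12⟩)
  · exact h11 A (mem_filter.mpr ⟨hA, h12⟩)

/-- small sets with superset vectors, the others with inclusion vectors -/
theorem small_large {s : ℕ} {F : Finset (Finset α)}
    (hanti : IsAntichain (· ⊆ ·) (F : Set (Finset α)))
    (hs : s ≤ Fintype.card α)
    (hL : Indep s (F.filter fun A => ¬ A.card < s))
    (hS : Indep (Fintype.card α - s) ((F.filter fun A => A.card < s).image compl)) :
    F.card ≤ (Fintype.card α).choose s := by
  classical
  refine card_le_of_indep s F (fun A S => if A.card < s then (if A ⊆ S then 1 else 0) else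
    (if S ⊆ A then 1 else 0)) ?_
  intro w hw
  have h1 : ∀ S : Finset α, S.card = s →
      ∑ A ∈ F.filter (fun A => A.card < s) with A ⊆ S, w A = 0 ∧
      ∑ A ∈ F.filter (fun A => ¬ A.card < s) with S ⊆ A, w A = 0 := by
    intro S hS
    have h2 := hw S hS
    rw [← Finset.sum_filter_add_sum_filter_not F (fun A => A.card < s)] at h2
    have h3 : ∑ x ∈ F.filter (fun A => A.card < s), w x * (if x.card < s then
        (if x ⊆ S then 1 else 0) else (if S ⊆ x then 1 else 0)) =
        ∑ A ∈ F.filter (fun A => A.card < s) with A ⊆ S, w A := by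
      rw [Finset.sum_filter (fun A => A ⊆ S)]
      refine Finset.sum_congr rfl fun A hA => ?_
      rw [if_pos (mem_filter.mp hA).2]
      split_ifs <;> simp
    have h4 : ∑ x ∈ F.filter (fun A => ¬ A.card < s), w x * (if x.card < s then
        (if x ⊆ S then 1 else 0) else (if S ⊆ x then 1 else 0)) =
        ∑ A ∈ F.filter (fun A => ¬ A.card < s) with S ⊆ A, w A := by
      rw [Finset.sum_filter (fun A => S ⊆ A)]
      refine Finset.sum_congr rfl fun A hA => ?_
      rw [if_neg (mem_filter.mp hA).2]
      split_ifs <;> simp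
    rw [h3, h4] at h2
    by_cases h5 : ∃ A ∈ F, A.card < s ∧ A ⊆ S
    · obtain ⟨A, hA, hAc, hSA⟩ := h5
      have h6 : ∑ A ∈ F.filter (fun A => ¬ A.card < s) with S ⊆ A, w A = 0 := by
        rw [Finset.sum_eq_zero]
        intro B hB
        exfalso
        rw [mem_filter, mem_filter] at hB
        have h7 : A ≠ B := by
          rintro rfl
          exact hB.1.2 hAc
        exact hanti hA hB.1.1 h7 (hSA.trans hB.2)
      rw [h6, add_zero] at h2
      exact ⟨h2, h6⟩
    · have h6 : ∑ A ∈ F.filter (fun A => A.card < s) with A ⊆ S, w A = 0 := by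
        rw [Finset.sum_eq_zero]
        intro B hB
        exfalso
        rw [mem_filter, mem_filter] at hB
        exact h5 ⟨B, hB.1.1, hB.1.2, hB.2⟩
      rw [h6, zero_add] at h2
      exact ⟨h6, h2⟩
  have h10 := hL w (fun S hS => (h1 S hS).2)
  have h11 := indep_sup hs hS w (fun S hS => (h1 S hS).1)
  intro A hA
  by_cases h12 : A.card < s
  · exact h11 A (mem_filter.mpr ⟨hA, h12⟩)
  · exact h10 A (mem_filter.mpr ⟨hA, h12⟩)

/-! ### consequences of the diameter -/

omit [Fintype α] in
theorem sd_card (A B : Finset α) : (symmDiff A B).card = (A \ B).card + (B \ A).card := by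
  rw [symmDiff_def, sup_eq_union, card_union_of_disjoint disjoint_sdiff_sdiff]

omit [Fintype α] in
theorem ca_card (A B : Finset α) : A.card + (B \ A).card = B.card + (A \ B).card := by
  have h1 := card_sdiff_add_card_inter A B
  have h2 := card_sdiff_add_card_inter B A
  rw [inter_comm] at h2
  omega

omit [Fintype α] in
theorem one_le {F : Finset (Finset α)} (hanti : IsAntichain (· ⊆ ·) (F : Set (Finset α)))
    {A B : Finset α} (hA : A ∈ F) (hB : B ∈ F) (hne : A ≠ B) : 1 ≤ (A \ B).card := by
  rw [Nat.one_le_iff_ne_zero, ne_eq, card_eq_zero, sdiff_eq_empty_iff_subset]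
  exact hanti hA hB hne

theorem compl_diam {F : Finset (Finset α)} {d : ℕ}
    (hd : ∀ A ∈ F, ∀ B ∈ F, (symmDiff A B).card ≤ d) :
    ∀ A ∈ F.image compl, ∀ B ∈ F.image compl, (symmDiff A B).card ≤ d := by
  intro A hA B hB
  rw [mem_image] at hA hB
  obtain ⟨A', hA', rfl⟩ := hA
  obtain ⟨B', hB', rfl⟩ := hB
  rw [compl_symmDiff_compl]
  exact hd A' hA' B' hB'

/-- even diameter: three consecutive levels are independent -/
theorem lower_even {s m : ℕ} (hsm : s ≤ m) {F : Finset (Finset α)}
    (hanti : IsAntichain (· ⊆ ·) (F : Set (Finset α)))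
    (hd : ∀ A ∈ F, ∀ B ∈ F, (symmDiff A B).card ≤ 2 * s) (hF : ∀ A ∈ F, m ≤ A.card)
    (hF' : ∀ A ∈ F, A.card ≤ m + 2) : Indep s F := by
  refine indep_block hsm hanti hF ?_ ?_
  · intro A hA hAm A' hA' hAm'
    have h1 := hd A hA A' hA'
    have h2 := sd_card A A'
    have h3 := ca_card A A'
    omega
  · intro A hA hAm A' hA'
    have h1 := hd A hA A' hA'
    have h2 := sd_card A A'
    have h3 := ca_card A A'
    have h4 := hF' A' hA'
    omega

/-- odd diameter: two consecutive levels are independent -/
theorem lower_odd {s m : ℕ} (hsm : s ≤ m) {F : Finset (Finset α)}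
    (hanti : IsAntichain (· ⊆ ·) (F : Set (Finset α)))
    (hd : ∀ A ∈ F, ∀ B ∈ F, (symmDiff A B).card ≤ 2 * s + 1) (hF : ∀ A ∈ F, m ≤ A.card)
    (hF' : ∀ A ∈ F, A.card ≤ m + 1) : Indep s F := by
  refine indep_block hsm hanti hF ?_ ?_
  · intro A hA hAm A' hA' hAm'
    have h1 := hd A hA A' hA'
    have h2 := sd_card A A'
    have h3 := ca_card A A'
    omega
  · intro A hA hAm A' hA'
    have h1 := hd A hA A' hA'
    have h2 := sd_card A A'
    have h3 := ca_card A A'
    have h4 := hF' A' hA'
    omega

/-- even diameter, sizes in `[s, n - s]`, all sizes but `s` and `n - s` within six consecutive levels -/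
theorem even_levels {s c : ℕ} (hn : 2 * s < Fintype.card α) {F : Finset (Finset α)}
    (hanti : IsAntichain (· ⊆ ·) (F : Set (Finset α)))
    (hd : ∀ A ∈ F, ∀ B ∈ F, (symmDiff A B).card ≤ 2 * s) (hlo : ∀ A ∈ F, s ≤ A.card)
    (hhi : ∀ A ∈ F, A.card + s ≤ Fintype.card α)
    (hlev : ∀ A ∈ F, A.card = s ∨ A.card + s = Fintype.card α ∨ (c ≤ A.card ∧ A.card < c + 6)) :
    F.card ≤ (Fintype.card α).choose s := by
  classical
  set n := Fintype.card α with hndef
  set c0 := max (min (c + 2) (n - s - 1)) s with hc0
  have hc1 : s ≤ c0 := le_max_right _ _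
  have hc2 : c0 + s < n := by omega
  refine lu c0 ?_ ?_ ?_
  · refine indep_drop (IsAntichain.mono' hanti (filter_subset _ _)) ?_
    refine lower_even (m := max c s) (le_max_right _ _)
      (IsAntichain.mono' hanti ((filter_subset _ _).trans (filter_subset _ _))) ?_ ?_ ?_
    · intro A hA B hB
      rw [mem_filter, mem_filter] at hA hB
      exact hd A hA.1.1 B hB.1.1
    · intro A hA
      rw [mem_filter, mem_filter] at hA
      have h1 := hlev A hA.1.1
      have h2 := hlo A hA.1.1
      omega
    · intro A hA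
      rw [mem_filter, mem_filter] at hA
      have h1 := hlev A hA.1.1
      have h2 := hlo A hA.1.1
      omega
  · refine indep_drop (compl_antichain (IsAntichain.mono' hanti (filter_subset _ _))) ?_
    refine lower_even (m := max (n - (c + 5)) s) (le_max_right _ _)
      (IsAntichain.mono' (compl_antichain (IsAntichain.mono' hanti (filter_subset _ _)))
        (filter_subset _ _)) ?_ ?_ ?_
    · intro A hA B hB
      rw [mem_filter, mem_image] at hA hB
      obtain ⟨⟨A', hA', rfl⟩, _⟩ := hA
      obtain ⟨⟨B', hB', rfl⟩, _⟩ := hB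
      rw [compl_symmDiff_compl]
      exact hd A' (mem_filter.mp hA').1 B' (mem_filter.mp hB').1
    · intro A hA
      rw [mem_filter, mem_image] at hA
      obtain ⟨⟨A', hA', rfl⟩, h3⟩ := hA
      rw [mem_filter] at hA'
      have h1 := hlev A' hA'.1
      have h2 := hhi A' hA'.1
      rw [card_compl, ← hndef] at h3 ⊢
      omega
    · intro A hA
      rw [mem_filter, mem_image] at hA
      obtain ⟨⟨A', hA', rfl⟩, h3⟩ := hA
      rw [mem_filter] at hA'
      have h1 := hlev A' hA'.1
      have h2 := hhi A' hA'.1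
      rw [card_compl, ← hndef] at h3 ⊢
      omega
  · intro A hA hAc B hB hBc
    have h1 := hd A hA B hB
    have h2 := sd_card A B
    have h3 := ca_card A B
    omega

/-- even diameter at most `6`: some member of size `< s` -/
theorem even_small {s : ℕ} (hs : s ≤ 3) (hn : 2 * s < Fintype.card α) {F : Finset (Finset α)}
    (hanti : IsAntichain (· ⊆ ·) (F : Set (Finset α)))
    (hd : ∀ A ∈ F, ∀ B ∈ F, (symmDiff A B).card ≤ 2 * s) (h : ∃ A ∈ F, A.card < s) :
    F.card ≤ (Fintype.card α).choose s := by
  classical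
  obtain ⟨A0, hA0, hA0s⟩ := h
  refine small_large hanti (by omega) ?_ ?_
  · refine indep_drop (IsAntichain.mono' hanti (filter_subset _ _)) ?_
    refine lower_even (m := s + 1) (by omega)
      (IsAntichain.mono' hanti ((filter_subset _ _).trans (filter_subset _ _))) ?_ ?_ ?_
    · intro A hA B hB
      rw [mem_filter, mem_filter] at hA hB
      exact hd A hA.1.1 B hB.1.1
    · intro A hA
      rw [mem_filter, mem_filter] at hA
      omega
    · intro A hA
      rw [mem_filter, mem_filter] at hA
      have hne : A0 ≠ A := by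
        rintro rfl
        exact hA.1.2 hA0s
      have h1 := hd A0 hA0 A hA.1.1
      have h2 := sd_card A0 A
      have h3 := ca_card A0 A
      have h4 := one_le hanti hA0 hA.1.1 hne
      omega
  · refine indep_of_diff (compl_antichain (IsAntichain.mono' hanti (filter_subset _ _))) ?_ ?_
    · intro A hA
      rw [mem_image] at hA
      obtain ⟨A', hA', rfl⟩ := hA
      rw [mem_filter] at hA'
      rw [card_compl]
      omega
    · intro A hA B hB
      rw [mem_image] at hA hB
      obtain ⟨A', hA', rfl⟩ := hA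
      obtain ⟨B', hB', rfl⟩ := hB
      rw [mem_filter] at hA' hB'
      have h1 : B'ᶜ \ A'ᶜ = A' \ B' := by
        ext x
        simp only [mem_sdiff, mem_compl, not_not]
        tauto
      rw [h1]
      have h2 : (A' \ B').card ≤ A'.card := card_le_card sdiff_subset
      omega

/-- even diameter at most `6` -/
theorem even_six {s : ℕ} (hs : s ≤ 3) (hn : 2 * s < Fintype.card α) {F : Finset (Finset α)}
    (hanti : IsAntichain (· ⊆ ·) (F : Set (Finset α)))
    (hd : ∀ A ∈ F, ∀ B ∈ F, (symmDiff A B).card ≤ 2 * s) :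
    F.card ≤ (Fintype.card α).choose s := by
  classical
  by_cases h1 : ∃ A ∈ F, A.card < s
  · exact even_small hs hn hanti hd h1
  by_cases h2 : ∃ A ∈ F, Fintype.card α < A.card + s
  · rw [← card_image_of_injective F compl_injective]
    refine even_small hs hn (compl_antichain hanti) (compl_diam hd) ?_
    obtain ⟨A, hA, hAs⟩ := h2
    refine ⟨Aᶜ, mem_image_of_mem _ hA, ?_⟩
    have hA' := card_le_univ A
    rw [card_compl]
    omega
  push Not at h1 h2
  rcases F.eq_empty_or_nonempty with rfl | hne
  · simp
  obtain ⟨A0, hA0, hmin⟩ := Finset.exists_min_image F Finset.card hne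
  refine even_levels (c := A0.card) hn hanti hd h1 h2 ?_
  intro A hA
  right
  right
  refine ⟨hmin A hA, ?_⟩
  by_cases h3 : A0 = A
  · rw [h3]
    omega
  · have h4 := hd A0 hA0 A hA
    have h5 := sd_card A0 A
    have h6 := ca_card A0 A
    have h7 := one_le hanti hA0 hA h3
    omega

/-- diameter at most `1` -/
theorem diam_one {F : Finset (Finset α)}
    (hanti : IsAntichain (· ⊆ ·) (F : Set (Finset α)))
    (hd : ∀ A ∈ F, ∀ B ∈ F, (symmDiff A B).card ≤ 1) : F.card ≤ 1 := by
  rw [card_le_one]
  intro A hA B hB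
  by_contra hne
  have h1 := hd A hA B hB
  have h2 := sd_card A B
  have h3 := one_le hanti hA hB hne
  have h4 := one_le hanti hB hA (Ne.symm hne)
  omega

/-- diameter at most `3` -/
theorem diam_three (hn : 1 ≤ Fintype.card α) {F : Finset (Finset α)}
    (hanti : IsAntichain (· ⊆ ·) (F : Set (Finset α)))
    (hd : ∀ A ∈ F, ∀ B ∈ F, (symmDiff A B).card ≤ 3) : F.card ≤ Fintype.card α := by
  classical
  rcases F.eq_empty_or_nonempty with rfl | hne
  · simp
  obtain ⟨A0, hA0, hmin⟩ := Finset.exists_min_image F Finset.card hne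
  rcases Nat.eq_zero_or_pos A0.card with h0 | h0
  · refine le_trans (card_le_one.mpr ?_) hn
    have h1 : A0 = ∅ := card_eq_zero.mp h0
    subst h1
    have h2 : ∀ B ∈ F, B = ∅ := by
      intro B hB
      by_contra hne'
      exact hanti hA0 hB (Ne.symm hne') (empty_subset _)
    intro A hA B hB
    rw [h2 A hA, h2 B hB]
  · have h1 : Indep 1 F := by
      refine lower_odd (m := A0.card) h0 hanti (by simpa using hd) hmin ?_
      intro A hA
      by_cases h3 : A0 = A
      · rw [h3]
        omega
      · have h4 := hd A0 hA0 A hA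
        have h5 := sd_card A0 A
        have h6 := ca_card A0 A
        have h7 := one_le hanti hA0 hA h3
        omega
    have h2 := card_le_of_indep 1 F (fun A S => if S ⊆ A then 1 else 0) (by
      intro w hw
      refine h1 w fun S hS => ?_
      rw [← hw S hS, Finset.sum_filter]
      refine Finset.sum_congr rfl fun A _ => ?_
      split_ifs <;> simp)
    simpa using h2

end Pool.Agent.F155B
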