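import Pool.Agent.F155B.Main

/-!
# Odd diameter, three consecutive levels (MP_f155e9_co)
-/

set_option autoImplicit false

namespace Pool.Agent.F155B

open Finset

variable {α : Type*} [Fintype α] [DecidableEq α]

/-- `A` as a vector on the slice `c` -/
noncomputable def vec (c : ℕ) (A X : Finset α) : ℝ := if X.card = c ∧ (X ⊆ A ∨ A ⊆ X) then 1 else 0

/-- odd diameter, sizes in `[c - 1, c + 1]`, with `s < c < n - s` -/
theorem odd_three {s c : ℕ} (hsc : s < c) (hcn : c + s < Fintype.card α) {F : Finset (Finset α)}
    (hanti : IsAntichain (· ⊆ ·) (F : Set (Finset α)))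
    (hd : ∀ A ∈ F, ∀ B ∈ F, (symmDiff A B).card ≤ 2 * s + 1)
    (hlo : ∀ A ∈ F, c ≤ A.card + 1) (hhi : ∀ A ∈ F, A.card ≤ c + 1) :
    F.card ≤ (Fintype.card α).choose s := by
  classical
  set n := Fintype.card α with hndef
  refine card_le_of_indep s F (fun A S => ∑ X with S ⊆ X, vec c A X) ?_
  intro w hw
  set y : Finset α → ℝ := fun X => ∑ A ∈ F, w A * vec c A X with hy
  have hyS : ∀ S : Finset α, S.card = s → ∑ X with S ⊆ X, y X = 0 := by
    intro S hS
    rw [← hw S hS, hy, Finset.sum_comm]
    refine Finset.sum_congr rfl fun A _ => ?_
    rw [Finset.mul_sum]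
  have hsupp : ∀ X, y X ≠ 0 → X.card = c ∧ ∃ A ∈ F, X ⊆ A ∨ A ⊆ X := by
    intro X hX
    obtain ⟨A, hA, hA'⟩ := Finset.exists_ne_zero_of_sum_ne_zero hX
    have h1 : vec c A X ≠ 0 := right_ne_zero_of_mul hA'
    rw [vec] at h1
    split_ifs at h1 with h2
    · exact ⟨h2.1, A, hA, h2.2⟩
    · exact absurd rfl h1
  have hyJ : ∀ J : Finset α, J.card ≤ s → ∑ X with J ⊆ X, y X = 0 :=
    down hsc.le (fun X hX => (hsupp X hX).1) hyS
  -- the sums over comparable sets
  have hY : ∀ A ∈ F, A.card ≠ c → ∑ X, y X * vec c A X = 0 := by
    intro A hA hAc
    rcases lt_or_gt_of_ne hAc with h | h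
    · -- lower level
      have hA1 : A.card + 1 = c := by have := hlo A hA; omega
      have h1 := profile (s := s) (N := A.card) (by omega) hyJ A ?_
      · refine Eq.trans ?_ h1
        rw [Finset.sum_filter]
        refine Finset.sum_congr rfl fun X _ => ?_
        by_cases hX : y X = 0
        · simp [hX]
        · have h2 := (hsupp X hX).1
          by_cases h3 : A ⊆ X
          · rw [vec, if_pos ⟨h2, Or.inr h3⟩, if_pos (by rw [inter_eq_right.mpr h3]), mul_one]
          · rw [vec, if_neg, if_neg, mul_zero]
            · intro h4
              apply h3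
              rw [← inter_eq_right]
              exact eq_of_subset_of_card_le inter_subset_right h4.ge
            · rintro ⟨_, h4 | h4⟩
              · have := card_le_card h4
                omega
              · exact h3 h4
      · intro X hX
        refine ⟨card_le_card inter_subset_right, ?_⟩
        obtain ⟨h2, A', hA', h3⟩ := hsupp X hX
        have h4 := card_sdiff_add_card_inter A X
        rw [inter_comm] at h4
        have h5 := hd A hA A' hA'
        have h6 := sd_card A A'
        have h7 := ca_card A A'
        have h8 := hlo A' hA'
        have h9 := hhi A' hA'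
        have h10 : (A \ X).card ≤ s := by
          rcases h3 with h3 | h3
          · have h11 : A \ X ⊆ (A \ A') ∪ (A' \ X) := by
              intro x hx
              simp only [mem_sdiff, mem_union] at hx ⊢
              tauto
            have h12 := (card_le_card h11).trans (card_union_le _ _)
            have h13 := card_sdiff_add_card_inter A' X
            rw [inter_eq_right.mpr h3] at h13
            omega
          · have h11 : (A \ X).card ≤ (A \ A').card := card_le_card (sdiff_subset_sdiff subset_rfl h3)
            have h12 := card_le_card h3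
            omega
        omega
    · have hA1 : A.card = c + 1 := by have := hhi A hA; omega
      have h1 := profile (s := s) (N := c) (by omega) hyJ A ?_
      · refine Eq.trans ?_ h1
        rw [Finset.sum_filter]
        refine Finset.sum_congr rfl fun X _ => ?_
        by_cases hX : y X = 0
        · simp [hX]
        · have h2 := (hsupp X hX).1
          by_cases h3 : X ⊆ A
          · rw [vec, if_pos ⟨h2, Or.inl h3⟩, if_pos (by rw [inter_eq_left.mpr h3, h2]), mul_one]
          · rw [vec, if_neg, if_neg, mul_zero]
            · intro h4
              apply h3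
              rw [← inter_eq_left]
              exact eq_of_subset_of_card_le inter_subset_left (by omega)
            · rintro ⟨_, h4 | h4⟩
              · exact h3 h4
              · have := card_le_card h4
                omega
      · intro X hX
        obtain ⟨h2, A', hA', h3⟩ := hsupp X hX
        refine ⟨(card_le_card inter_subset_left).trans h2.le, ?_⟩
        have h4 := card_sdiff_add_card_inter X A
        have h5 := hd A hA A' hA'
        have h6 := sd_card A A'
        have h7 := ca_card A A'
        have h8 := hlo A' hA'
        have h9 := hhi A' hA'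
        have h10 : (X \ A).card ≤ s := by
          rcases h3 with h3 | h3
          · have h11 : (X \ A).card ≤ (A' \ A).card := card_le_card (sdiff_subset_sdiff h3 subset_rfl)
            have h12 := card_le_card h3
            omega
          · have h11 : X \ A ⊆ (A' \ A) ∪ (X \ A') := by
              intro x hx
              simp only [mem_sdiff, mem_union] at hx ⊢
              tauto
            have h12 := (card_le_card h11).trans (card_union_le _ _)
            have h13 := card_sdiff_add_card_inter X A'
            rw [inter_eq_right.mpr h3] at h13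
            omega
        omega
  -- the middle level
  have hcomp : ∀ A ∈ F, ∀ B ∈ F, B.card = c → A ≠ B → vec c A B = 0 := by
    intro A hA B hB hBc hne
    rw [vec, if_neg]
    rintro ⟨_, h | h⟩
    · exact hanti hB hA (Ne.symm hne) h
    · exact hanti hA hB hne h
  have hself : ∀ B ∈ F, B.card = c → y B = w B := by
    intro B hB hBc
    rw [hy]
    simp only
    rw [Finset.sum_eq_single B]
    · rw [vec, if_pos ⟨hBc, Or.inl subset_rfl⟩, mul_one]
    · intro A hA hne
      rw [hcomp A hA B hB hBc hne, mul_zero]
    · intro h
      exact absurd hB h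
  have hYc : ∀ B ∈ F, B.card = c → ∑ X, y X * vec c B X = y B := by
    intro B hB hBc
    rw [Finset.sum_eq_single B]
    · rw [vec, if_pos ⟨hBc, Or.inl subset_rfl⟩, mul_one]
    · intro X _ hne
      rw [vec, if_neg, mul_zero]
      rintro ⟨h1, h2 | h2⟩
      · exact hne (eq_of_subset_of_card_le h2 (by omega))
      · exact hne (eq_of_subset_of_card_le h2 (by omega)).symm
    · simp
  -- energy
  have hE : ∑ X, y X ^ 2 = ∑ A ∈ F with A.card = c, y A ^ 2 := by
    have h1 : ∀ X, y X ^ 2 = ∑ A ∈ F, w A * (y X * vec c A X) := by
      intro X
      have : y X = ∑ A ∈ F, w A * vec c A X := rfl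
      rw [sq]
      nth_rewrite 1 [this]
      rw [Finset.sum_mul]
      refine Finset.sum_congr rfl fun A _ => by ring
    have h1' : ∑ X, y X ^ 2 = ∑ X, ∑ A ∈ F, w A * (y X * vec c A X) :=
      Finset.sum_congr rfl fun X _ => h1 X
    rw [h1', Finset.sum_comm, Finset.sum_filter]
    refine Finset.sum_congr rfl fun A hA => ?_
    rw [← Finset.mul_sum]
    split_ifs with h2
    · rw [hYc A hA h2, hself A hA h2, sq]
    · rw [hY A hA h2, mul_zero]
  have hoff : ∀ X, X ∉ F.filter (fun A => A.card = c) → y X = 0 := by
    intro X hX
    have h3 : ∑ X ∈ (F.filter (fun A => A.card = c))ᶜ, y X ^ 2 = 0 := by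
      have := Finset.sum_add_sum_compl (F.filter (fun A => A.card = c)) (fun X => y X ^ 2)
      linarith
    rw [Finset.sum_eq_zero_iff_of_nonneg (fun X _ => sq_nonneg _)] at h3
    have := h3 X (by simpa using hX)
    exact pow_eq_zero_iff (two_ne_zero) |>.mp this
  -- split
  have hsplit : ∀ X : Finset α, X.card = c →
      ∑ A ∈ F.filter (fun A => A.card = c + 1) with X ⊆ A, w A = 0 ∧
      ∑ A ∈ F.filter (fun A => A.card + 1 = c) with A ⊆ X, w A = 0 := by
    intro X hXc
    by_cases hXF : X ∈ F
    · constructor
      · rw [Finset.sum_eq_zero]
        intro A hA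
        exfalso
        rw [mem_filter, mem_filter] at hA
        exact hanti hXF hA.1.1 (by rintro rfl; omega) hA.2
      · rw [Finset.sum_eq_zero]
        intro A hA
        exfalso
        rw [mem_filter, mem_filter] at hA
        exact hanti hA.1.1 hXF (by rintro rfl; omega) hA.2
    · have h1 : y X = 0 := hoff X (by
        rw [mem_filter]
        exact fun h => hXF h.1)
      have h2 : y X = ∑ A ∈ F.filter (fun A => A.card = c + 1) with X ⊆ A, w A +
          ∑ A ∈ F.filter (fun A => A.card + 1 = c) with A ⊆ X, w A := by
        rw [hy]
        simp only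
        rw [Finset.filter_filter, Finset.filter_filter, Finset.sum_filter, Finset.sum_filter,
          ← Finset.sum_add_distrib]
        refine Finset.sum_congr rfl fun A hA => ?_
        have h3 := hlo A hA
        have h4 := hhi A hA
        rw [vec]
        by_cases h5 : A.card = c + 1
        · by_cases h6 : X ⊆ A
          · rw [if_pos ⟨hXc, Or.inl h6⟩, if_pos ⟨h5, h6⟩, if_neg (by omega)]
            ring
          · rw [if_neg, if_neg (fun h => h6 h.2), if_neg (by omega)]
            · ring
            · rintro ⟨_, h7 | h7⟩
              · exact h6 h7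
              · have := card_le_card h7
                omega
        · by_cases h8 : A.card + 1 = c
          · by_cases h6 : A ⊆ X
            · rw [if_pos ⟨hXc, Or.inr h6⟩, if_neg (fun h => h5 h.1), if_pos ⟨h8, h6⟩]
              ring
            · rw [if_neg, if_neg (fun h => h5 h.1), if_neg (fun h => h6 h.2)]
              · ring
              · rintro ⟨_, h7 | h7⟩
                · have := card_le_card h7
                  omega
                · exact h6 h7
          · have h9 : A.card = c := by omega
            rw [if_neg, if_neg (fun h => h5 h.1), if_neg (fun h => h8 h.1)]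
            · ring
            · rintro ⟨_, h7 | h7⟩
              · exact hXF ((eq_of_subset_of_card_le h7 (by omega)) ▸ hA)
              · exact hXF ((eq_of_subset_of_card_le h7 (by omega)) ▸ hA)
      rw [h1] at h2
      by_cases h10 : ∃ A ∈ F, A.card = c + 1 ∧ X ⊆ A
      · obtain ⟨A, hA, hAc, hXA⟩ := h10
        have h11 : ∑ A ∈ F.filter (fun A => A.card + 1 = c) with A ⊆ X, w A = 0 := by
          rw [Finset.sum_eq_zero]
          intro B hB
          exfalso
          rw [mem_filter, mem_filter] at hB
          exact hanti hB.1.1 hA (by rintro rfl; omega) (hB.2.trans hXA)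
        rw [h11, add_zero] at h2
        exact ⟨h2.symm, h11⟩
      · have h11 : ∑ A ∈ F.filter (fun A => A.card = c + 1) with X ⊆ A, w A = 0 := by
          rw [Finset.sum_eq_zero]
          intro B hB
          exfalso
          rw [mem_filter, mem_filter] at hB
          exact h10 ⟨B, hB.1.1, hB.1.2, hB.2⟩
        rw [h11, zero_add] at h2
        exact ⟨h11, h2.symm⟩
  -- upper level
  have hU : ∀ A ∈ F.filter (fun A => A.card = c + 1), w A = 0 := by
    refine indep_of_diff (s := c) (IsAntichain.mono' hanti (filter_subset _ _)) ?_ ?_ w
      (fun X hX => (hsplit X hX).1)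
    · intro A hA
      rw [mem_filter] at hA
      omega
    · intro A hA A' hA'
      rw [mem_filter] at hA hA'
      have h1 := hd A hA.1 A' hA'.1
      have h2 := sd_card A A'
      have h3 := ca_card A A'
      omega
  -- lower level
  have hD : ∀ A ∈ F.filter (fun A => A.card + 1 = c), w A = 0 := by
    refine indep_sup (t := c) (by omega) ?_ w (fun X hX => (hsplit X hX).2)
    refine indep_of_diff (compl_antichain (IsAntichain.mono' hanti (filter_subset _ _))) ?_ ?_
    · intro A hA
      rw [mem_image] at hA
      obtain ⟨A', hA', rfl⟩ := hA
      rw [mem_filter] at hA'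
      rw [card_compl]
      omega
    · intro A hA B hB
      rw [mem_image] at hA hB
      obtain ⟨A', hA', rfl⟩ := hA
      obtain ⟨B', hB', rfl⟩ := hB
      rw [mem_filter] at hA' hB'
      have h1 : B'ᶜ \ A'ᶜ = A' \ B' := by
        ext x
        simp only [mem_sdiff, mem_compl, not_not]
        tauto
      rw [h1]
      have h2 := hd A' hA'.1 B' hB'.1
      have h3 := sd_card A' B'
      have h4 := ca_card A' B'
      omega
  -- middle level
  have hM : ∀ A ∈ F.filter (fun A => A.card = c), w A = 0 := by
    refine indep_of_diff (s := s) (IsAntichain.mono' hanti (filter_subset _ _)) ?_ ?_ w ?_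
    · intro A hA
      rw [mem_filter] at hA
      omega
    · intro A hA A' hA'
      rw [mem_filter] at hA hA'
      have h1 := hd A hA.1 A' hA'.1
      have h2 := sd_card A A'
      have h3 := ca_card A A'
      omega
    · intro S hS
      refine Eq.trans ?_ (hyS S hS)
      have h6 : ∑ X : Finset α, (if S ⊆ X then y X else 0) =
          ∑ X ∈ F.filter (fun A => A.card = c), if S ⊆ X then y X else 0 := by
        refine (Finset.sum_subset (subset_univ _) fun X _ hX => ?_).symm
        rw [hoff X hX]
        simp
      rw [Finset.sum_filter, Finset.sum_filter (fun X => S ⊆ X) y, h6]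
      refine Finset.sum_congr rfl fun A hA => ?_
      rw [mem_filter] at hA
      rw [hself A hA.1 hA.2]
  intro A hA
  have h1 := hlo A hA
  have h2 := hhi A hA
  by_cases h3 : A.card = c
  · exact hM A (mem_filter.mpr ⟨hA, h3⟩)
  by_cases h4 : A.card = c + 1
  · exact hU A (mem_filter.mpr ⟨hA, h4⟩)
  · exact hD A (mem_filter.mpr ⟨hA, by omega⟩)

end Pool.Agent.F155B
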